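import Pool.Agent.K1H17.ST.Stm

/-!
# Rounding in a spanning subgroup
-/

set_option autoImplicit false

open Module

namespace Pool.Agent.K1H83.ST

open Pool.Agent.K1H17.ST

lemma zpow_eq {n : ℕ} {A : Type} [Group A] (Λ : A → Fin n → ℝ)
    (h : ∀ a b i, Λ (a * b) i = Λ a i + Λ b i) (a : A) (z : ℤ) (i : Fin n) :
    Λ (a ^ z) i = z * Λ a i := by
  let φ : A →* Multiplicative (Fin n → ℝ) :=
    MonoidHom.mk' (fun a => Multiplicative.ofAdd (Λ a)) (by
      intro a b
      rw [← ofAdd_add]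
      congr 1
      funext i
      exact h a b i)
  have h1 : φ (a ^ z) = (φ a) ^ z := map_zpow φ a z
  have h2 : Multiplicative.toAdd (φ (a ^ z)) = Multiplicative.toAdd ((φ a) ^ z) := by rw [h1]
  rw [toAdd_zpow] at h2
  have h3 : Λ (a ^ z) = z • Λ a := h2
  rw [h3, Pi.smul_apply, zsmul_eq_mul]

lemma one_eq {n : ℕ} {A : Type} [Group A] (Λ : A → Fin n → ℝ)
    (h : ∀ a b i, Λ (a * b) i = Λ a i + Λ b i) (i : Fin n) : Λ 1 i = 0 := by
  have h1 := h 1 1 i
  rw [mul_one] at h1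
  linarith

lemma comb {n : ℕ} {A : Type} [Group A] (Λ : A → Fin n → ℝ)
    (h : ∀ a b i, Λ (a * b) i = Λ a i + Λ b i) (t : Finset (Fin n → ℝ)) (z : (Fin n → ℝ) → ℤ)
    (ht : ∀ k ∈ t, ∃ a, Λ a = k) : ∃ a, ∀ i, Λ a i = ∑ k ∈ t, z k * k i := by
  classical
  induction t using Finset.induction_on with
  | empty => exact ⟨1, fun i => by rw [one_eq Λ h i, Finset.sum_empty]⟩
  | insert k t hk ih =>
    obtain ⟨a, ha⟩ := ih fun k' hk' => ht k' (Finset.mem_insert_of_mem hk')
    obtain ⟨b, hb⟩ := ht k (Finset.mem_insert_self k t)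
    refine ⟨b ^ (z k) * a, fun i => ?_⟩
    rw [h, zpow_eq Λ h, ha, Finset.sum_insert hk, hb]

theorem t_RND : S_RND := by
  classical
  intro n A _ Λ hadd hsum hw
  have hspan : ∀ u : Fin n → ℝ, ∑ i, u i = 0 → u ∈ Submodule.span ℝ (Set.range Λ) := by
    intro u hu
    by_contra hn
    obtain ⟨f, hf, hker⟩ := Submodule.exists_le_ker_of_notMem hn
    have h1 : ∀ v : Fin n → ℝ, f v = ∑ i, v i * f (fun j => if i = j then 1 else 0) := by
      intro v
      rw [LinearMap.pi_apply_eq_sum_univ f v]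
      simp only [smul_eq_mul]
    have h2 := hw (fun i => f (fun j => if i = j then 1 else 0)) (by
      intro a
      have h3 : Λ a ∈ LinearMap.ker f := hker (Submodule.subset_span ⟨a, rfl⟩)
      rw [LinearMap.mem_ker, h1] at h3
      refine Eq.trans ?_ h3
      exact Finset.sum_congr rfl fun i _ => mul_comm _ _)
    apply hf
    rw [h1]
    rcases isEmpty_or_nonempty (Fin n) with he | ⟨⟨i0⟩⟩
    · exact Finset.sum_of_isEmpty _
    · have h3 : ∀ i ∈ Finset.univ, u i * f (fun j => if i = j then 1 else 0) =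
          u i * f (fun j => if i0 = j then 1 else 0) := by
        intro i _
        rw [h2 i i0]
      rw [Finset.sum_congr rfl h3, ← Finset.sum_mul, hu, zero_mul]
  obtain ⟨t, ht, hte⟩ := (Submodule.fg_span_iff_fg_span_finset_subset (Set.range Λ)).1
    (IsNoetherian.noetherian (Submodule.span ℝ (Set.range Λ)))
  refine ⟨∑ k ∈ t, ∑ i, |k i|, fun u hu => ?_⟩
  have h1 := hspan u hu
  rw [hte, Submodule.mem_span_finset] at h1
  obtain ⟨c, -, hc⟩ := h1
  obtain ⟨a, ha⟩ := comb Λ hadd t (fun k => ⌊c k⌋) (fun k hk => ht hk)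
  refine ⟨a, fun i => ?_⟩
  have h2 : u i = ∑ k ∈ t, c k * k i := by
    rw [← hc, Finset.sum_apply]
    rfl
  rw [h2, ha i, ← Finset.sum_sub_distrib]
  refine (Finset.abs_sum_le_sum_abs _ _).trans (Finset.sum_le_sum fun k _ => ?_)
  have h3 : |c k - ⌊c k⌋| ≤ 1 := by
    have h4 := Int.floor_le (c k)
    have h5 := Int.lt_floor_add_one (c k)
    rw [abs_le]
    constructor <;> linarith
  calc |c k * k i - (⌊c k⌋ : ℝ) * k i| = |c k - ⌊c k⌋| * |k i| := by
        rw [← abs_mul]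
        congr 1
        ring
    _ ≤ 1 * |k i| := mul_le_mul_of_nonneg_right h3 (abs_nonneg _)
    _ = |k i| := one_mul _
    _ ≤ ∑ i, |k i| := Finset.single_le_sum (f := fun i => |k i|) (fun i _ => abs_nonneg _)
        (Finset.mem_univ i)

end Pool.Agent.K1H83.ST
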